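import Mathlib
import Pool.Agent.H11.Fcc

namespace Pool.Agent.Results.MP_b59a08_co.Quadruples

/-- The centres of a packing of unit balls in Euclidean 3-space. -/
def IsPacking (C : Finset (EuclideanSpace ℝ (Fin 3))) : Prop :=
  ∀ x ∈ C, ∀ y ∈ C, x ≠ y → 2 ≤ dist x y

open Classical in
/-- The number of `r`-sets of balls of the packing that touch pairwise. -/
noncomputable def touching (r : ℕ) (C : Finset (EuclideanSpace ℝ (Fin 3))) : ℕ :=
  ((C.powersetCard r).filter (fun T => ∀ x ∈ T, ∀ y ∈ T, x ≠ y → dist x y = 2)).card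

theorem result (k : ℕ) (hk : 0 < k) (h3 : 3 ∣ k) :
    ∃ C : Finset (EuclideanSpace ℝ (Fin 3)), IsPacking C ∧
    (C.card : ℚ) = (2 * k ^ 3 + k) / 3 ∧
    4 / 3 * ((k : ℚ) - 2) * (k - 1) * k < touching 4 C := by
  obtain ⟨j, rfl⟩ := h3
  obtain ⟨m, rfl⟩ : ∃ m, j = m + 1 := ⟨j - 1, by omega⟩
  obtain ⟨C, h1, h2, h3⟩ := H11.Fcc.quads (m + 1) (by omega)
  rw [show 3 * (m + 1) - 1 = 3 * m + 2 by omega, show 4 * (m + 1) - 1 = 4 * m + 3 by omega] at h3
  have h5 : ((3 * m + 2) * ((3 * m + 2) * (4 * m + 3)) : ℚ) ≤ touching 4 C := by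
    exact_mod_cast h3
  have h6 : (0 : ℚ) ≤ m := Nat.cast_nonneg _
  refine ⟨C, h2, by rw [h1]; push_cast; ring, lt_of_lt_of_le ?_ h5⟩
  push_cast
  nlinarith

end Pool.Agent.Results.MP_b59a08_co.Quadruples
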