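import Mathlib
import Pool.Agent.H11.Fcc

namespace Pool.Agent.Results.MP_b59a08_co.Triplets

/-- The centres of a packing of unit balls in Euclidean 3-space. -/
def IsPacking (C : Finset (EuclideanSpace ℝ (Fin 3))) : Prop :=
  ∀ x ∈ C, ∀ y ∈ C, x ≠ y → 2 ≤ dist x y

open Classical in
/-- The number of `r`-sets of balls of the packing that touch pairwise. -/
noncomputable def touching (r : ℕ) (C : Finset (EuclideanSpace ℝ (Fin 3))) : ℕ :=
  ((C.powersetCard r).filter (fun T => ∀ x ∈ T, ∀ y ∈ T, x ≠ y → dist x y = 2)).card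

theorem result (k : ℕ) (hk : 3 ≤ k) : ∃ C : Finset (EuclideanSpace ℝ (Fin 3)), IsPacking C ∧
    (C.card : ℚ) = (2 * k ^ 3 + k) / 3 ∧
    4 / 3 * ((k : ℚ) - 1) * k * (4 * k - 5) < touching 3 C := by
  obtain ⟨m, rfl⟩ : ∃ m, k = m + 1 + 1 := ⟨k - 2, by omega⟩
  obtain ⟨C, h1, h2, h3⟩ := H11.Fcc.triplets (m + 1) (by omega)
  rw [show 4 * (m + 1) - 1 = 4 * m + 3 by omega] at h3
  have h4 : (3 * C.card : ℚ) = 2 * (m + 1 + 1) ^ 3 + (m + 1 + 1) := by exact_mod_cast h1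
  have h5 : (4 * (m + 1) * (m + 1 + 1) * (4 * m + 3) : ℚ) < 3 * touching 3 C := by
    exact_mod_cast h3
  refine ⟨C, h2, ?_, ?_⟩ <;> push_cast <;> linarith

end Pool.Agent.Results.MP_b59a08_co.Triplets
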